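import Mathlib
import Pool.Agent.R706.GrOp

/-!
# Preprojective modules over graded right artinian rings are gradable

Right `R`-modules are modules over `Rᵐᵒᵖ`, and `R` is right artinian when `Rᵐᵒᵖ` is an artinian
ring (in Mathlib this is the left artinian condition).
-/

set_option autoImplicit false

namespace Pool.Agent.Results.MP_12d20c_al.PreprojectiveGradable

open MulOpposite

universe u

/-- `U` is isomorphic to a direct summand of a finite direct sum of copies of `X` -/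
def InAdd (R : Type u) [Ring R] (X : Type u) [AddCommGroup X] [Module Rᵐᵒᵖ X] (U : Type u)
    [AddCommGroup U] [Module Rᵐᵒᵖ U] : Prop :=
  ∃ (k : ℕ) (i : U →ₗ[Rᵐᵒᵖ] (Fin k → X)) (p : (Fin k → X) →ₗ[Rᵐᵒᵖ] U), p ∘ₗ i = LinearMap.id

/-- indecomposable right modules -/
def Indecomposable (R : Type u) [Ring R] (M : Type u) [AddCommGroup M] [Module Rᵐᵒᵖ M] : Prop :=
  Nontrivial M ∧ ∀ A B : Submodule Rᵐᵒᵖ M, IsCompl A B → A = ⊥ ∨ B = ⊥

/-- preprojective right modules: finitely presented and indecomposable, and there is a finitely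
presented `X` such that `Y` is not in `add X` and every finitely presented `Z` with a nonsplit
epimorphism to `Y` has a nonzero direct summand in `add X` -/
def Preprojective (R : Type u) [Ring R] (Y : Type u) [AddCommGroup Y] [Module Rᵐᵒᵖ Y] : Prop :=
  Module.FinitePresentation Rᵐᵒᵖ Y ∧ Indecomposable R Y ∧
  ∃ (X : Type u) (_ : AddCommGroup X) (_ : Module Rᵐᵒᵖ X),
    Module.FinitePresentation Rᵐᵒᵖ X ∧ ¬ InAdd R X Y ∧
    ∀ (Z : Type u) [AddCommGroup Z] [Module Rᵐᵒᵖ Z], Module.FinitePresentation Rᵐᵒᵖ Z →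
      ∀ f : Z →ₗ[Rᵐᵒᵖ] Y, Function.Surjective f →
        (¬ ∃ s : Y →ₗ[Rᵐᵒᵖ] Z, f ∘ₗ s = LinearMap.id) →
        ∃ A B : Submodule Rᵐᵒᵖ Z, IsCompl A B ∧ A ≠ ⊥ ∧ InAdd R X A

/-- a right module is gradable when it is isomorphic to a right module `N = ⨁ N_i` with
`N_i R_j ⊆ N_{i+j}` -/
def Gradable {R : Type u} [Ring R] (𝒜 : ℤ → AddSubgroup R) (M : Type u) [AddCommGroup M]
    [Module Rᵐᵒᵖ M] : Prop :=
  ∃ (N : Type u) (_ : AddCommGroup N) (_ : Module Rᵐᵒᵖ N) (𝓝 : ℤ → AddSubgroup N),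
    DirectSum.IsInternal 𝓝 ∧
    (∀ i j : ℤ, ∀ x ∈ 𝓝 i, ∀ r ∈ 𝒜 j, op r • x ∈ 𝓝 (i + j)) ∧
    Nonempty (M ≃ₗ[Rᵐᵒᵖ] N)

/-- Over a graded right artinian ring every preprojective right module is gradable. -/
theorem result (R : Type u) [Ring R] (𝒜 : ℤ → AddSubgroup R) [GradedRing 𝒜]
    [IsArtinianRing Rᵐᵒᵖ] (Y : Type u) [AddCommGroup Y] [Module Rᵐᵒᵖ Y]
    (hY : Preprojective R Y) : Gradable 𝒜 Y := by
  obtain ⟨hYf, ⟨hYn, hYi⟩, X, iX, mX, hXf, _, hpre⟩ := hY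
  obtain ⟨N, iN, mN, D, hN⟩ := R706.GrMod.left_main (R706.GrOp.opGr 𝒜) (X := X) hYi
    (fun Z _ _ _ f hf hs => hpre Z (Module.finitePresentation_of_finite _ _) f hf hs)
  refine ⟨N, iN, mN, fun i => (D.p i).range, D.isInternal, ?_, hN⟩
  intro i j x hx r hr
  rw [add_comm]
  exact D.smul_range i j hr hx

end Pool.Agent.Results.MP_12d20c_al.PreprojectiveGradable
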